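import Mathlib

namespace Pool.Agent.MP_10964f_lc

open Cardinal

/-- `D` is a dominating family: every `f : ω → ω` is, at all but finitely many places,
below some member of `D`. -/
def IsDominating (D : Set (ℕ → ℕ)) : Prop :=
  ∀ f : ℕ → ℕ, ∃ g ∈ D, ∀ᶠ n in Filter.cofinite, f n ≤ g n

/-- The dominating number: the least cardinality of a dominating family. -/
noncomputable def dominatingNumber : Cardinal.{0} :=
  sInf {c : Cardinal.{0} | ∃ D : Set (ℕ → ℕ), IsDominating D ∧ Cardinal.mk D = c}

/-- The strong polarized relation with two colours for the pair `lam`, `kap`; a cardinal is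
represented by the type of ordinals below it. -/
def StrongPolarized (lam kap : Cardinal.{0}) : Prop :=
  ∀ c : lam.ord.ToType × kap.ord.ToType → Fin 2,
    ∃ (A : Set lam.ord.ToType) (B : Set kap.ord.ToType),
      Cardinal.mk A = lam ∧ Cardinal.mk B = kap ∧ ∃ i : Fin 2, ∀ a ∈ A, ∀ b ∈ B, c (a, b) = i

end Pool.Agent.MP_10964f_lc
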