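import Pool.Agent.MP_10964f_lc.Defs

namespace Pool.Agent.MP_10964f_lc

open Cardinal Filter Set

theorem exists_dominating :
    ∃ D : Set (ℕ → ℕ), IsDominating D ∧ Cardinal.mk D = dominatingNumber := by
  have h : ({c : Cardinal.{0} | ∃ D : Set (ℕ → ℕ), IsDominating D ∧ Cardinal.mk D = c}).Nonempty :=
    ⟨_, Set.univ, fun f => ⟨f, Set.mem_univ _, Eventually.of_forall fun _ => le_rfl⟩, rfl⟩
  exact csInf_mem h

theorem dominatingNumber_le {D : Set (ℕ → ℕ)} (hD : IsDominating D) :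
    dominatingNumber ≤ Cardinal.mk D :=
  csInf_le' ⟨D, hD, rfl⟩

theorem dominatingNumber_le_range {ι : Type} (F : ι → ℕ → ℕ)
    (hF : ∀ f : ℕ → ℕ, ∃ i, ∀ᶠ n in cofinite, f n ≤ F i n) :
    dominatingNumber ≤ Cardinal.mk ι := by
  refine (dominatingNumber_le (D := Set.range F) ?_).trans mk_range_le
  intro f
  obtain ⟨i, hi⟩ := hF f
  exact ⟨F i, ⟨i, rfl⟩, hi⟩

theorem aleph0_lt_dominatingNumber : ℵ₀ < dominatingNumber := by
  obtain ⟨D, hD, hc⟩ := exists_dominating
  by_contra h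
  rw [not_lt, ← hc, le_aleph0_iff_set_countable] at h
  obtain ⟨g0, hg0, -⟩ := hD (fun _ => 0)
  obtain ⟨e, he⟩ := h.exists_eq_range ⟨g0, hg0⟩
  obtain ⟨g, hg, hle⟩ := hD (fun n => (Finset.range (n + 1)).sup (fun k => e k n) + 1)
  rw [he] at hg
  obtain ⟨k, rfl⟩ := hg
  rw [Nat.cofinite_eq_atTop] at hle
  obtain ⟨n, hn1, hn2⟩ := (hle.and (eventually_ge_atTop k)).exists
  have : e k n ≤ (Finset.range (n + 1)).sup (fun k => e k n) :=
    Finset.le_sup (f := fun k => e k n) (Finset.mem_range.2 (by omega))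
  omega

/-- An enumeration of a dominating family in order type the dominating number. -/
theorem exists_enum : ∃ F : dominatingNumber.ord.ToType → ℕ → ℕ,
    ∀ f : ℕ → ℕ, ∃ i, ∀ᶠ n in cofinite, f n ≤ F i n := by
  obtain ⟨D, hD, hc⟩ := exists_dominating
  have : Cardinal.mk dominatingNumber.ord.ToType = Cardinal.mk D := by
    rw [mk_ord_toType, hc]
  obtain ⟨e⟩ := Cardinal.eq.1 this
  refine ⟨fun i => (e i).1, fun f => ?_⟩
  obtain ⟨g, hg, hle⟩ := hD f
  exact ⟨e.symm ⟨g, hg⟩, by simpa using hle⟩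

theorem mk_Iic_lt_dominatingNumber (a : dominatingNumber.ord.ToType) :
    Cardinal.mk (Set.Iic a) < dominatingNumber := by
  have h := mk_Iic_lt a (by simp) (by simpa using aleph0_lt_dominatingNumber.le)
  simpa using h

/-- The least element of an infinite set that is at least `n`. -/
noncomputable def nxt (B : Set ℕ) (n : ℕ) : ℕ := sInf {b | b ∈ B ∧ n ≤ b}

theorem nxt_spec {B : Set ℕ} (hB : B.Infinite) (n : ℕ) : nxt B n ∈ B ∧ n ≤ nxt B n := by
  have : ({b | b ∈ B ∧ n ≤ b} : Set ℕ).Nonempty := by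
    obtain ⟨b, hb, hlt⟩ := hB.exists_gt n
    exact ⟨b, hb, hlt.le⟩
  exact Nat.sInf_mem this

/-- The monotone envelope of a finite family of functions. -/
def env {ι : Type} (F : ι → ℕ → ℕ) (s : Finset ι) (n : ℕ) : ℕ :=
  n + 1 + s.sup (fun i => (Finset.range (n + 1)).sup (F i))

theorem env_mono {ι : Type} (F : ι → ℕ → ℕ) (s : Finset ι) : Monotone (env F s) := by
  intro a b hab
  unfold env
  have : s.sup (fun i => (Finset.range (a + 1)).sup (F i)) ≤
      s.sup (fun i => (Finset.range (b + 1)).sup (F i)) :=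
    Finset.sup_mono_fun fun i _ => Finset.sup_mono (Finset.range_mono (by omega))
  omega

theorem lt_env {ι : Type} (F : ι → ℕ → ℕ) (s : Finset ι) (n : ℕ) : n < env F s n := by
  unfold env; omega

theorem lt_env_of_mem {ι : Type} (F : ι → ℕ → ℕ) {s : Finset ι} {i : ι} (hi : i ∈ s) (n : ℕ) :
    F i n < env F s n := by
  unfold env
  have h1 : F i n ≤ (Finset.range (n + 1)).sup (F i) :=
    Finset.le_sup (f := F i) (Finset.mem_range.2 (by omega))
  have h2 : (Finset.range (n + 1)).sup (F i) ≤ s.sup (fun i => (Finset.range (n + 1)).sup (F i)) :=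
    Finset.le_sup (f := fun i => (Finset.range (n + 1)).sup (F i)) hi
  omega

theorem env_le_of_subset {ι : Type} (F : ι → ℕ → ℕ) {s t : Finset ι} (h : s ⊆ t) (n : ℕ) :
    env F s n ≤ env F t n := by
  unfold env
  have : s.sup (fun i => (Finset.range (n + 1)).sup (F i)) ≤
      t.sup (fun i => (Finset.range (n + 1)).sup (F i)) := Finset.sup_mono h
  omega

/-- A nonprincipal ultrafilter on `ω` with a base of fewer than `𝔡` sets exists. -/
def SmallUltra : Prop :=
  ∃ (U : Ultrafilter ℕ) (ι : Type) (S : ι → Set ℕ), (U : Filter ℕ) ≤ cofinite ∧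
    Cardinal.mk ι < dominatingNumber ∧ (∀ i, S i ∈ U) ∧ ∀ X ∈ U, ∃ i, S i ⊆ X

/-- If an ultrafilter is generated by fewer than `𝔡` sets then every family cofinal modulo it
has at least `𝔡` members. -/
theorem le_of_cofinal {U : Ultrafilter ℕ} {ι : Type} {S : ι → Set ℕ}
    (hU : (U : Filter ℕ) ≤ cofinite) (hι : Cardinal.mk ι < dominatingNumber) (hS : ∀ i, S i ∈ U)
    (hb : ∀ X ∈ U, ∃ i, S i ⊆ X) {κ : Type} (G : κ → ℕ → ℕ)
    (hG : ∀ f : ℕ → ℕ, ∃ j, ∀ᶠ n in (U : Filter ℕ), f n ≤ G j n) :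
    dominatingNumber ≤ Cardinal.mk κ := by
  by_contra hlt
  rw [not_le] at hlt
  have hinf : ∀ i, (S i).Infinite := by
    intro i hfin
    have h1 : (S i)ᶜ ∈ (U : Filter ℕ) := hU hfin.compl_mem_cofinite
    exact (Ultrafilter.compl_mem_iff_notMem.1 h1) (hS i)
  have h1 : dominatingNumber ≤ Cardinal.mk (κ × ι) := by
    refine dominatingNumber_le_range (fun p n => G p.1 (nxt (S p.2) n)) fun f => ?_
    obtain ⟨j, hj⟩ := hG (env (fun _ : Unit => f) Finset.univ)
    obtain ⟨i, hi⟩ := hb _ hj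
    refine ⟨(j, i), Eventually.of_forall fun n => ?_⟩
    have h2 := nxt_spec (hinf i) n
    have h3 : env (fun _ : Unit => f) Finset.univ (nxt (S i) n) ≤ G j (nxt (S i) n) := hi h2.1
    have h4 := env_mono (fun _ : Unit => f) Finset.univ h2.2
    have h5 := lt_env_of_mem (fun _ : Unit => f) (Finset.mem_univ ()) n
    simp only at h5 ⊢
    omega
  have h2 : Cardinal.mk (κ × ι) < dominatingNumber := by
    simp only [mk_prod, lift_id]
    exact mul_lt_of_lt aleph0_lt_dominatingNumber.le hlt hι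
  exact absurd h1 (not_le.2 h2)

theorem not_smallUltra_of_singular (h : dominatingNumber.IsSingular) : ¬ SmallUltra := by
  rintro ⟨U, ι, S, hU, hι, hS, hb⟩
  obtain ⟨F, hF⟩ := exists_enum
  obtain ⟨s, hs, hcard⟩ := Order.exists_cof_eq (α := dominatingNumber.ord.ToType)
  rw [Ordinal.cof_toType] at hcard
  have hlt : Cardinal.mk s < dominatingNumber := hcard ▸ h.cof_ord_lt
  have key : ∀ a : dominatingNumber.ord.ToType, ∃ g : ℕ → ℕ, ∀ b ≤ a,
      ∀ᶠ n in (U : Filter ℕ), F b n ≤ g n := by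
    intro a
    by_contra hcon
    have : dominatingNumber ≤ Cardinal.mk (Set.Iic a) := by
      refine le_of_cofinal hU hι hS hb (fun b : Set.Iic a => F b.1) fun f => ?_
      by_contra hf
      refine hcon ⟨f, fun b hba => ?_⟩
      have h1 : ¬ ∀ᶠ n in (U : Filter ℕ), f n ≤ F b n := fun h1 => hf ⟨⟨b, hba⟩, h1⟩
      rw [← Ultrafilter.eventually_not] at h1
      exact h1.mono fun n hn => by omega
    exact absurd this (not_le.2 (mk_Iic_lt_dominatingNumber a))
  choose g hg using key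
  have : dominatingNumber ≤ Cardinal.mk s := by
    refine le_of_cofinal hU hι hS hb (fun a : s => g a.1) fun f => ?_
    obtain ⟨b, hb'⟩ := hF f
    obtain ⟨a, ha, hba⟩ := hs b
    refine ⟨⟨a, ha⟩, ?_⟩
    filter_upwards [hU hb', hg a b hba] with n h1 h2
    exact le_trans h1 h2
  exact absurd this (not_le.2 hlt)

/-- Iterates of a strictly expanding function cut `ω` into blocks. -/
theorem exists_block {a : ℕ → ℕ} (ha : StrictMono a) (h0 : a 0 = 0) (n : ℕ) :
    ∃ k, a k ≤ n ∧ n < a (k + 1) := by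
  have hex : ∃ k, n < a (k + 1) := ⟨n, lt_of_lt_of_le (Nat.lt_succ_self n) (ha.id_le (n + 1))⟩
  refine ⟨Nat.find hex, ?_, Nat.find_spec hex⟩
  rcases h : Nat.find hex with _ | k
  · omega
  · have := Nat.find_min hex (m := k) (by omega)
    omega

theorem block_unique {a : ℕ → ℕ} (ha : StrictMono a) {n k l : ℕ}
    (h1 : a k ≤ n) (h2 : n < a (k + 1)) (h3 : a l ≤ n) (h4 : n < a (l + 1)) : k = l := by
  have e1 : k < l + 1 := ha.lt_iff_lt.1 (lt_of_le_of_lt h1 h4)
  have e2 : l < k + 1 := ha.lt_iff_lt.1 (lt_of_le_of_lt h3 h2)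
  omega

/-- Key lemma: if no nonprincipal ultrafilter is generated by fewer than `𝔡` sets, then for every
family of fewer than `𝔡` functions there is a set such that both it and its complement contain
infinitely many of the intervals `[n, F i n]`, for each `i`. -/
theorem key_lemma (hU : ¬ SmallUltra) {ι : Type} (F : ι → ℕ → ℕ)
    (hι : Cardinal.mk ι < dominatingNumber) :
    ∃ A : Set ℕ, ∀ i N, (∃ n ≥ N, ∀ m, n ≤ m → m ≤ F i n → m ∈ A) ∧
      (∃ n ≥ N, ∀ m, n ≤ m → m ≤ F i n → m ∉ A) := by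
  classical
  have hfin : Cardinal.mk (Finset ι) < dominatingNumber := by
    rcases finite_or_infinite ι with hι' | hι'
    · exact (lt_aleph0_of_finite _).trans aleph0_lt_dominatingNumber
    · rwa [mk_finset_of_infinite]
  have h1 : ∃ g0 : ℕ → ℕ, ∀ s : Finset ι, ∃ᶠ n in atTop, env F s (env F s n) < g0 n := by
    by_contra hcon
    have : dominatingNumber ≤ Cardinal.mk (Finset ι) := by
      refine dominatingNumber_le_range (fun s n => env F s (env F s n)) fun f => ?_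
      by_contra hf
      refine hcon ⟨f, fun s => ?_⟩
      have h2 : ¬ ∀ᶠ n in cofinite, f n ≤ env F s (env F s n) := fun h2 => hf ⟨s, h2⟩
      rw [Nat.cofinite_eq_atTop, not_eventually] at h2
      exact h2.mono fun n hn => by omega
    exact absurd this (not_le.2 hfin)
  obtain ⟨g0, hg0⟩ := h1
  set g : ℕ → ℕ := env (fun _ : Unit => g0) Finset.univ with hg
  have hgm : Monotone g := env_mono _ _
  have hglt : ∀ n, n < g n := lt_env _ _
  have hgg : ∀ n, g0 n < g n := fun n => lt_env_of_mem (fun _ : Unit => g0) (Finset.mem_univ ()) n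
  let a : ℕ → ℕ := fun k => g^[k] 0
  have ha0 : a 0 = 0 := rfl
  have has : ∀ k, a (k + 1) = g (a k) := fun k => Function.iterate_succ_apply' g k 0
  have ha : StrictMono a := strictMono_nat_of_lt_succ fun k => by rw [has]; exact hglt _
  let S : Finset ι × ℕ → Set ℕ := fun p =>
    {k | p.2 ≤ k ∧ ∃ n, a k ≤ n ∧ env F p.1 n ≤ a (k + 1)}
  have hSne : ∀ p, (S p).Nonempty := by
    rintro ⟨s, j⟩
    obtain ⟨n, hn1, hn2⟩ := ((hg0 s).and_eventually (eventually_ge_atTop (a j))).exists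
    obtain ⟨k, hk1, hk2⟩ := exists_block ha ha0 n
    have hjk : j ≤ k := by
      have : j < k + 1 := ha.lt_iff_lt.1 (lt_of_le_of_lt hn2 hk2)
      omega
    by_cases hc : env F s n ≤ a (k + 1)
    · exact ⟨k, hjk, n, hk1, hc⟩
    · refine ⟨k + 1, by simp only; omega, a (k + 1), le_rfl, ?_⟩
      have e1 : env F s (a (k + 1)) ≤ env F s (env F s n) := env_mono F s (by omega)
      have e2 : g n ≤ g (a (k + 1)) := hgm hk2.le
      have e3 := hgg n
      rw [has (k + 1)]
      simp only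
      omega
  have hSmono : ∀ p q : Finset ι × ℕ, p.1 ⊆ q.1 → p.2 ≤ q.2 → S q ⊆ S p := by
    rintro p q h1 h2 k ⟨hk, n, hn1, hn2⟩
    exact ⟨h2.trans hk, n, hn1, (env_le_of_subset F h1 n).trans hn2⟩
  let 𝓕 : Filter ℕ :=
    { sets := {X | ∃ p, S p ⊆ X}
      univ_sets := ⟨(∅, 0), Set.subset_univ _⟩
      sets_of_superset := by
        rintro X Y ⟨p, hp⟩ hXY
        exact ⟨p, hp.trans hXY⟩
      inter_sets := by
        rintro X Y ⟨p, hp⟩ ⟨q, hq⟩
        refine ⟨(p.1 ∪ q.1, max p.2 q.2), Set.subset_inter ?_ ?_⟩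
        · exact (hSmono p _ Finset.subset_union_left (le_max_left _ _)).trans hp
        · exact (hSmono q _ Finset.subset_union_right (le_max_right _ _)).trans hq }
  have hmem : ∀ X, X ∈ 𝓕 ↔ ∃ p, S p ⊆ X := fun X => Iff.rfl
  have hY : ∃ Y : Set ℕ, Y ∉ 𝓕 ∧ Yᶜ ∉ 𝓕 := by
    by_contra hcon
    apply hU
    have hult : ∀ X : Set ℕ, Xᶜ ∉ 𝓕 ↔ X ∈ 𝓕 := by
      intro X
      constructor
      · intro hX
        by_contra hX'
        exact hcon ⟨X, hX', hX⟩
      · intro hX hX'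
        obtain ⟨p, hp⟩ := (hmem _).1 (Filter.inter_mem hX hX')
        obtain ⟨k, hk⟩ := hSne p
        simpa using hp hk
    refine ⟨Ultrafilter.ofComplNotMemIff 𝓕 hult, Finset ι × ℕ, S, ?_, ?_, ?_, ?_⟩
    · intro X hX
      rw [Nat.cofinite_eq_atTop, mem_atTop_sets] at hX
      obtain ⟨j, hj⟩ := hX
      exact ⟨(∅, j), fun k hk => hj k hk.1⟩
    · simp only [mk_prod, lift_id, mk_nat]
      exact mul_lt_of_lt aleph0_lt_dominatingNumber.le hfin aleph0_lt_dominatingNumber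
    · intro p
      exact ⟨p, subset_rfl⟩
    · intro X hX
      exact hX
  obtain ⟨Y, hY1, hY2⟩ := hY
  refine ⟨{m | ∃ k ∈ Y, a k ≤ m ∧ m < a (k + 1)}, fun i N => ⟨?_, ?_⟩⟩
  · have : ¬ S ({i}, N) ⊆ Yᶜ := fun h => hY2 ⟨_, h⟩
    obtain ⟨k, ⟨hk1, n, hn1, hn2⟩, hk2⟩ := Set.not_subset.1 this
    have hkY : k ∈ Y := by simpa using hk2
    have e1 : k ≤ a k := ha.id_le k
    have e2 := lt_env_of_mem F (Finset.mem_singleton_self i) n
    refine ⟨n, by simp only at hk1; omega, fun m hm1 hm2 => ⟨k, hkY, hn1.trans hm1, ?_⟩⟩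
    simp only at hn2
    omega
  · have : ¬ S ({i}, N) ⊆ Y := fun h => hY1 ⟨_, h⟩
    obtain ⟨k, ⟨hk1, n, hn1, hn2⟩, hk2⟩ := Set.not_subset.1 this
    have e1 : k ≤ a k := ha.id_le k
    have e2 := lt_env_of_mem F (Finset.mem_singleton_self i) n
    refine ⟨n, by simp only at hk1; omega, fun m hm1 hm2 => ?_⟩
    rintro ⟨l, hl, hl1, hl2⟩
    simp only at hn2
    have : k = l := block_unique ha (hn1.trans hm1) (by omega) hl1 hl2
    exact hk2 (this ▸ hl)

theorem not_strongPolarized (hU : ¬ SmallUltra) : ¬ StrongPolarized dominatingNumber ℵ₀ := by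
  classical
  intro hP
  obtain ⟨F, hF⟩ := exists_enum
  have key : ∀ a : dominatingNumber.ord.ToType, ∃ A : Set ℕ, ∀ b ≤ a, ∀ N,
      (∃ n ≥ N, ∀ m, n ≤ m → m ≤ F b n → m ∈ A) ∧ (∃ n ≥ N, ∀ m, n ≤ m → m ≤ F b n → m ∉ A) := by
    intro a
    obtain ⟨A, hA⟩ := key_lemma hU (fun b : Set.Iic a => F b.1) (mk_Iic_lt_dominatingNumber a)
    exact ⟨A, fun b hb N => hA ⟨b, hb⟩ N⟩
  choose A hA using key
  have he : Cardinal.mk (ℵ₀ : Cardinal.{0}).ord.ToType = Cardinal.mk ℕ := by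
    rw [mk_ord_toType, mk_nat]
  obtain ⟨e⟩ := Cardinal.eq.1 he
  obtain ⟨X, B, hX, hB, i, hi⟩ := hP (fun p => if e p.2 ∈ A p.1 then 1 else 0)
  have hBinf : (e '' B).Infinite := by
    refine Set.Infinite.image e.injective.injOn ?_
    rw [← Set.infinite_coe_iff, infinite_iff, hB]
  obtain ⟨b, hb⟩ := hF (nxt (e '' B))
  rw [Nat.cofinite_eq_atTop, eventually_atTop] at hb
  obtain ⟨N, hN⟩ := hb
  have hXa : ∃ a ∈ X, b ≤ a := by
    by_contra hcon
    have hsub : X ⊆ Set.Iic b := by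
      intro a ha
      by_contra hab
      exact hcon ⟨a, ha, (not_le.1 hab).le⟩
    have := (mk_le_mk_of_subset hsub).trans_lt (mk_Iic_lt_dominatingNumber b)
    rw [hX] at this
    exact lt_irrefl _ this
  obtain ⟨a, ha, hba⟩ := hXa
  obtain ⟨⟨n1, hn1, h1⟩, ⟨n2, hn2, h2⟩⟩ := hA a b hba N
  obtain ⟨⟨x1, hx1, ex1⟩, l1⟩ := nxt_spec hBinf n1
  obtain ⟨⟨x2, hx2, ex2⟩, l2⟩ := nxt_spec hBinf n2
  have m1 := h1 _ l1 (hN n1 hn1)
  have m2 := h2 _ l2 (hN n2 hn2)
  have c1 := hi a ha x1 hx1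
  have c2 := hi a ha x2 hx2
  simp only [ex1, ex2, m1, m2, if_true, if_false] at c1 c2
  rw [← c2] at c1
  exact absurd c1 (by decide)

theorem not_strongPolarized_of_singular (h : dominatingNumber.IsSingular) :
    ¬ StrongPolarized dominatingNumber ℵ₀ :=
  not_strongPolarized (not_smallUltra_of_singular h)

end Pool.Agent.MP_10964f_lc
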