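import Pool.Agent.MP_10964f_lc.Defs

namespace Pool.Agent.MP_10964f_lc

open Cardinal

/-- The ultrafilter number: the least cardinality of a base of a nonprincipal ultrafilter
on `ω`. -/
noncomputable def ultrafilterNumber : Cardinal.{0} :=
  sInf {c : Cardinal.{0} | ∃ (U : Ultrafilter ℕ) (S : Set (Set ℕ)),
    (U : Filter ℕ) ≤ Filter.cofinite ∧ (∀ Y ∈ S, Y ∈ U) ∧ (∀ X ∈ U, ∃ Y ∈ S, Y ⊆ X) ∧
      Cardinal.mk S = c}

/-- The square-bracket polarized relation for the pair `lam`, `ω` with `theta` colours: every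
colouring misses a colour on some rectangle with sides of size `lam` and `ℵ₀`. -/
def SquareBracket (lam theta : Cardinal.{0}) : Prop :=
  ∀ c : lam.ord.ToType × ℕ → theta.ord.ToType,
    ∃ (A : Set lam.ord.ToType) (B : Set ℕ),
      Cardinal.mk A = lam ∧ B.Infinite ∧ ∃ i : theta.ord.ToType, ∀ a ∈ A, ∀ b ∈ B, c (a, b) ≠ i

end Pool.Agent.MP_10964f_lc
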