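import Pool.Agent.MP_10964f_lc.Proof
import Pool.Agent.MP_10964f_lc.SqDefs

namespace Pool.Agent.MP_10964f_lc

open Cardinal Filter Set

theorem mk_Iic_lt_of {lam : Cardinal.{0}} (h : ℵ₀ ≤ lam) (a : lam.ord.ToType) :
    Cardinal.mk (Set.Iic a) < lam := by
  have h1 := mk_Iic_lt a (by simp) (by simpa using h)
  simpa using h1

/-- Two linear orders of the same infinite cofinality: a map sending tails into tails. -/
theorem exists_transfer {L M : Type} [LinearOrder L] [LinearOrder M]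
    (h : Order.cof L = Order.cof M) (h0 : ℵ₀ ≤ Order.cof L) :
    ∃ j : L → M, ∀ m, ∃ b, ∀ a, b ≤ a → m ≤ j a := by
  obtain ⟨s, hs, hsc⟩ := Order.exists_cof_eq (α := L)
  obtain ⟨t, ht, htc⟩ := Order.exists_cof_eq (α := M)
  have e1 : Cardinal.mk (Order.cof L).ord.ToType = Cardinal.mk s := by rw [mk_ord_toType, hsc]
  have e2 : Cardinal.mk (Order.cof L).ord.ToType = Cardinal.mk t := by rw [mk_ord_toType, htc, h]
  obtain ⟨p⟩ := Cardinal.eq.1 e1
  obtain ⟨q⟩ := Cardinal.eq.1 e2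
  have hp : ∀ a : L, ∃ i, a ≤ (p i).1 := by
    intro a
    obtain ⟨x, hx, hax⟩ := hs a
    exact ⟨p.symm ⟨x, hx⟩, by simpa using hax⟩
  have hq : ∀ m : M, ∃ i, m ≤ (q i).1 := by
    intro m
    obtain ⟨x, hx, hax⟩ := ht m
    exact ⟨q.symm ⟨x, hx⟩, by simpa using hax⟩
  have hbM : ∀ i, ∃ m : M, ∀ i' ≤ i, (q i').1 ≤ m := by
    intro i
    have : ¬ IsCofinal ((fun i' => (q i').1) '' Set.Iic i) := by
      intro hc
      have h1 := (Order.cof_le hc).trans mk_image_le
      rw [← h] at h1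
      exact absurd h1 (not_le.2 (mk_Iic_lt_of h0 i))
    obtain ⟨m, hm⟩ := BddAbove.of_not_isCofinal this
    exact ⟨m, fun i' hi' => hm ⟨i', hi', rfl⟩⟩
  have hbL : ∀ i, ∃ b : L, ∀ i' ≤ i, (p i').1 < b := by
    intro i
    have : ¬ IsCofinal ((fun i' => (p i').1) '' Set.Iic i) := by
      intro hc
      have h1 := (Order.cof_le hc).trans mk_image_le
      exact absurd h1 (not_le.2 (mk_Iic_lt_of h0 i))
    obtain ⟨b, hb⟩ := not_isCofinal_iff.1 this
    exact ⟨b, fun i' hi' => hb _ ⟨i', hi', rfl⟩⟩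
  choose g hg using hbM
  choose idx hidx using hp
  refine ⟨fun a => g (idx a), fun m => ?_⟩
  obtain ⟨i, hi⟩ := hq m
  obtain ⟨b, hb⟩ := hbL i
  refine ⟨b, fun a hba => hi.trans (hg _ _ ?_)⟩
  by_contra hlt
  exact absurd ((hidx a).trans_lt (hb _ (not_le.1 hlt).le)) (not_lt.2 hba)

/-- A subset of full size of an infinite cardinal is unbounded. -/
theorem exists_mem_ge {lam : Cardinal.{0}} (h : ℵ₀ ≤ lam) {X : Set lam.ord.ToType}
    (hX : Cardinal.mk X = lam) (b : lam.ord.ToType) : ∃ a ∈ X, b ≤ a := by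
  by_contra hcon
  have hsub : X ⊆ Set.Iic b := by
    intro a ha
    by_contra hab
    exact hcon ⟨a, ha, (not_le.1 hab).le⟩
  have := (mk_le_mk_of_subset hsub).trans_lt (mk_Iic_lt_of h b)
  rw [hX] at this
  exact lt_irrefl _ this

theorem smallUltra_iff : SmallUltra ↔ ultrafilterNumber < dominatingNumber := by
  constructor
  · rintro ⟨U, ι, S, hU, hι, hS, hb⟩
    refine lt_of_le_of_lt ?_ hι
    refine le_trans (csInf_le' ⟨U, Set.range S, hU, ?_, ?_, rfl⟩) mk_range_le
    · rintro _ ⟨i, rfl⟩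
      exact hS i
    · intro X hX
      obtain ⟨i, hi⟩ := hb X hX
      exact ⟨S i, ⟨i, rfl⟩, hi⟩
  · intro h
    have hne : ({c : Cardinal.{0} | ∃ (U : Ultrafilter ℕ) (S : Set (Set ℕ)),
        (U : Filter ℕ) ≤ Filter.cofinite ∧ (∀ Y ∈ S, Y ∈ U) ∧ (∀ X ∈ U, ∃ Y ∈ S, Y ⊆ X) ∧
          Cardinal.mk S = c}).Nonempty :=
      ⟨_, hyperfilter ℕ, {X | X ∈ hyperfilter ℕ}, hyperfilter_le_cofinite, fun _ hY => hY,
        fun X hX => ⟨X, hX, subset_rfl⟩, rfl⟩
    obtain ⟨U, S, hU, hS, hb, hc⟩ := csInf_mem hne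
    refine ⟨U, S, fun Y => Y.1, hU, ?_, fun Y => hS _ Y.2, fun X hX => ?_⟩
    · rw [hc]
      exact h
    · obtain ⟨Y, hY, hYX⟩ := hb X hX
      exact ⟨⟨Y, hY⟩, hYX⟩

/-- `A` contains infinitely many of the intervals `[n, F i n]`, for each `i`. -/
def Fat {ι : Type} (F : ι → ℕ → ℕ) (A : Set ℕ) : Prop :=
  ∀ i N, ∃ n ≥ N, ∀ m, n ≤ m → m ≤ F i n → m ∈ A

theorem fat_split (hU : ¬ SmallUltra) {ι : Type} (F : ι → ℕ → ℕ)
    (hι : Cardinal.mk ι < dominatingNumber) {A : Set ℕ} (hA : Fat F A) :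
    ∃ C : Set ℕ, C ⊆ A ∧ Fat F C ∧ Fat F (A \ C) := by
  choose nx hnx hin using hA
  obtain ⟨C, hC⟩ := key_lemma hU (fun i n => F i (nx i n)) hι
  refine ⟨A ∩ C, Set.inter_subset_left, fun i N => ?_, fun i N => ?_⟩
  · obtain ⟨n, hn, h⟩ := (hC i N).1
    exact ⟨nx i n, le_trans hn (hnx i n), fun m h1 h2 =>
      ⟨hin i n m h1 h2, h m (le_trans (hnx i n) h1) h2⟩⟩
  · obtain ⟨n, hn, h⟩ := (hC i N).2
    exact ⟨nx i n, le_trans hn (hnx i n), fun m h1 h2 =>
      ⟨hin i n m h1 h2, fun hm => h m (le_trans (hnx i n) h1) h2 hm.2⟩⟩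

/-- Infinitely many disjoint fat sets, written as a colouring of `ω`. -/
theorem exists_fat_colouring (hU : ¬ SmallUltra) {ι : Type} (F : ι → ℕ → ℕ)
    (hι : Cardinal.mk ι < dominatingNumber) :
    ∃ c : ℕ → ℕ, ∀ t, Fat F {m | c m = t} := by
  have hstep : ∀ A : {A : Set ℕ // Fat F A}, ∃ C : {A : Set ℕ // Fat F A},
      C.1 ⊆ A.1 ∧ Fat F (A.1 \ C.1) := by
    intro A
    obtain ⟨C, h1, h2, h3⟩ := fat_split hU F hι A.2
    exact ⟨⟨C, h2⟩, h1, h3⟩
  choose nx h1 h2 using hstep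
  let A : ℕ → {A : Set ℕ // Fat F A} := fun t =>
    nx^[t] ⟨Set.univ, fun _ N => ⟨N, le_rfl, fun _ _ _ => Set.mem_univ _⟩⟩
  have hAs : ∀ t, A (t + 1) = nx (A t) := fun t => Function.iterate_succ_apply' nx t _
  have hanti : Antitone (fun t => (A t).1) :=
    antitone_nat_of_succ_le fun t => by
      simp only [hAs]
      exact h1 _
  refine ⟨fun m => sInf {t | m ∉ (A (t + 1)).1}, fun t i N => ?_⟩
  obtain ⟨n, hn, h⟩ := h2 (A t) i N
  refine ⟨n, hn, fun m hm1 hm2 => ?_⟩
  obtain ⟨e1, e2⟩ := h m hm1 hm2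
  rw [← hAs] at e2
  refine le_antisymm (Nat.sInf_le e2) ?_
  by_contra hlt
  have hmem := Nat.sInf_mem (s := {t | m ∉ (A (t + 1)).1}) ⟨t, e2⟩
  exact hmem (hanti (Nat.succ_le_of_lt (not_le.1 hlt)) e1)

theorem aleph0_le_cof_dominatingNumber : ℵ₀ ≤ dominatingNumber.ord.cof :=
  (isRegular_cof (isSuccLimit_ord aleph0_lt_dominatingNumber.le)).aleph0_le

/-- The colouring with countably many colours, in tail form. -/
theorem exists_tail_colouring (hU : ¬ SmallUltra) {lam : Cardinal.{0}}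
    (hcf : lam.ord.cof = dominatingNumber.ord.cof) :
    ∃ c : lam.ord.ToType → ℕ → ℕ, ∀ B : Set ℕ, B.Infinite →
      ∃ b, ∀ a, b ≤ a → ∀ t, ∃ n ∈ B, c a n = t := by
  obtain ⟨F, hF⟩ := exists_enum
  obtain ⟨j, hj⟩ := exists_transfer (L := lam.ord.ToType) (M := dominatingNumber.ord.ToType)
    (by rw [Ordinal.cof_toType, Ordinal.cof_toType, hcf])
    (by rw [Ordinal.cof_toType, hcf]; exact aleph0_le_cof_dominatingNumber)
  have key : ∀ d : dominatingNumber.ord.ToType, ∃ c : ℕ → ℕ, ∀ t,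
      Fat (fun b : Set.Iic d => F b.1) {m | c m = t} := fun d =>
    exists_fat_colouring hU _ (mk_Iic_lt_dominatingNumber d)
  choose c hc using key
  refine ⟨fun a => c (j a), fun B hB => ?_⟩
  obtain ⟨d, hd⟩ := hF (nxt B)
  rw [Nat.cofinite_eq_atTop, eventually_atTop] at hd
  obtain ⟨N, hN⟩ := hd
  obtain ⟨b, hb⟩ := hj d
  refine ⟨b, fun a hba t => ?_⟩
  obtain ⟨n, hn, h⟩ := hc (j a) t ⟨d, hb a hba⟩ N
  obtain ⟨e1, e2⟩ := nxt_spec hB n
  exact ⟨nxt B n, e1, h _ e2 (hN n hn)⟩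

/-- From a tail colouring onto the colours to the failure of the square-bracket relation. -/
theorem not_squareBracket_of_tail {lam theta : Cardinal.{0}} (h : ℵ₀ ≤ lam)
    (c : lam.ord.ToType → ℕ → theta.ord.ToType)
    (hc : ∀ B : Set ℕ, B.Infinite → ∀ t, ∃ b, ∀ a, b ≤ a → ∃ n ∈ B, c a n = t) :
    ¬ SquareBracket lam theta := by
  intro hS
  obtain ⟨A, B, hA, hB, t, ht⟩ := hS (fun p => c p.1 p.2)
  obtain ⟨b, hb⟩ := hc B hB t
  obtain ⟨a, ha, hba⟩ := exists_mem_ge h hA b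
  obtain ⟨n, hn, e⟩ := hb a hba
  exact ht a ha n hn e

theorem not_squareBracket_countable (hU : ¬ SmallUltra) {lam theta : Cardinal.{0}}
    (hcf : lam.ord.cof = dominatingNumber.ord.cof) (h0 : theta ≠ 0) (h1 : theta ≤ ℵ₀) :
    ¬ SquareBracket lam theta := by
  have hlam : ℵ₀ ≤ lam :=
    (aleph0_le_cof_dominatingNumber.trans hcf.ge).trans (Ordinal.cof_ord_le lam)
  obtain ⟨c, hc⟩ := exists_tail_colouring hU hcf
  have : Countable theta.ord.ToType := by
    rw [← mk_le_aleph0_iff, mk_ord_toType]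
    exact h1
  have : Nonempty theta.ord.ToType := by
    rw [← mk_ne_zero_iff, mk_ord_toType]
    exact h0
  obtain ⟨e, he⟩ := exists_surjective_nat theta.ord.ToType
  refine not_squareBracket_of_tail hlam (fun a n => e (c a n)) fun B hB t => ?_
  obtain ⟨b, hb⟩ := hc B hB
  obtain ⟨k, rfl⟩ := he t
  refine ⟨b, fun a hba => ?_⟩
  obtain ⟨n, hn, e1⟩ := hb a hba k
  exact ⟨n, hn, by simp only [e1]⟩

theorem not_squareBracket_aleph1 (hU : ¬ SmallUltra) {lam : Cardinal.{0}}
    (hcf : lam.ord.cof = dominatingNumber.ord.cof) (h1 : lam.ord.cof = ℵ₁) :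
    ¬ SquareBracket lam ℵ₁ := by
  have hlam : ℵ₀ ≤ lam :=
    (aleph0_le_cof_dominatingNumber.trans hcf.ge).trans (Ordinal.cof_ord_le lam)
  obtain ⟨c, hc⟩ := exists_tail_colouring hU hcf
  obtain ⟨j, hj⟩ := exists_transfer (L := lam.ord.ToType) (M := (ℵ₁ : Cardinal.{0}).ord.ToType)
    (by rw [Ordinal.cof_toType, Ordinal.cof_toType, h1, isRegular_aleph_one.cof_ord])
    (by rw [Ordinal.cof_toType, h1]; exact aleph0_le_aleph 1)
  have key : ∀ x : (ℵ₁ : Cardinal.{0}).ord.ToType, ∃ e : ℕ → (ℵ₁ : Cardinal.{0}).ord.ToType,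
      ∀ y ≤ x, ∃ k, e k = y := by
    intro x
    have : Countable (Set.Iic x) := by
      rw [← mk_le_aleph0_iff, ← lt_aleph_one_iff]
      exact mk_Iic_lt_of (aleph0_le_aleph 1) x
    have : Nonempty (Set.Iic x) := ⟨⟨x, Set.mem_Iic.2 le_rfl⟩⟩
    obtain ⟨e, he⟩ := exists_surjective_nat (Set.Iic x)
    refine ⟨fun k => (e k).1, fun y hy => ?_⟩
    obtain ⟨k, hk⟩ := he ⟨y, hy⟩
    exact ⟨k, by simp only [hk]⟩
  choose e he using key
  refine not_squareBracket_of_tail hlam (fun a n => e (j a) (c a n)) fun B hB t => ?_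
  obtain ⟨b, hb⟩ := hc B hB
  obtain ⟨b', hb'⟩ := hj t
  refine ⟨max b b', fun a hba => ?_⟩
  obtain ⟨k, hk⟩ := he (j a) t (hb' a ((le_max_right _ _).trans hba))
  obtain ⟨n, hn, e1⟩ := hb a ((le_max_left _ _).trans hba) k
  exact ⟨n, hn, by simp only [e1, hk]⟩

theorem squareBracket_of_smallUltra (hU : SmallUltra) {lam theta : Cardinal.{0}}
    (hcf : lam.ord.cof = dominatingNumber.ord.cof) (h2 : 2 ≤ theta) :
    SquareBracket lam theta := by
  classical
  have hlam : ℵ₀ ≤ lam :=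
    (aleph0_le_cof_dominatingNumber.trans hcf.ge).trans (Ordinal.cof_ord_le lam)
  have hreg : dominatingNumber.ord.cof = dominatingNumber := by
    by_contra hne
    exact not_smallUltra_of_singular ⟨aleph0_lt_dominatingNumber.le, hne⟩ hU
  obtain ⟨U, ι, S, hUc, hι, hS, hb⟩ := hU
  have hinf : ∀ i, (S i).Infinite := by
    intro i hfin
    have h1 : (S i)ᶜ ∈ (U : Filter ℕ) := hUc hfin.compl_mem_cofinite
    exact (Ultrafilter.compl_mem_iff_notMem.1 h1) (hS i)
  have : Nontrivial theta.ord.ToType := by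
    rw [← one_lt_iff_nontrivial, mk_ord_toType]
    exact lt_of_lt_of_le (by norm_num) h2
  obtain ⟨x, y, hxy⟩ := exists_pair_ne theta.ord.ToType
  intro c
  have key : ∀ a : lam.ord.ToType, ∃ p : ι × Bool, ∀ n ∈ S p.1,
      c (a, n) ≠ (if p.2 then x else y) := by
    intro a
    rcases U.mem_or_compl_mem {n | c (a, n) = x} with h | h
    · obtain ⟨i, hi⟩ := hb _ h
      refine ⟨(i, false), fun n hn => ?_⟩
      have : c (a, n) = x := hi hn
      simpa [this] using hxy
    · obtain ⟨i, hi⟩ := hb _ h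
      refine ⟨(i, true), fun n hn => ?_⟩
      have : ¬ c (a, n) = x := hi hn
      simpa using this
  choose φ hφ using key
  obtain ⟨p, hp⟩ := infinite_pigeonhole φ (by rwa [mk_ord_toType]) (by
    rw [mk_ord_toType, hcf, hreg]
    simp only [mk_prod, lift_id]
    exact mul_lt_of_lt aleph0_lt_dominatingNumber.le hι
      ((lt_aleph0_of_finite _).trans aleph0_lt_dominatingNumber))
  rw [mk_ord_toType] at hp
  refine ⟨φ ⁻¹' {p}, S p.1, hp, hinf _, if p.2 then x else y, fun a ha n hn => ?_⟩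
  have e : φ a = p := ha
  have := hφ a n (by rwa [e])
  rwa [e] at this

/-- A row uses only countably many colours. -/
theorem exists_missing {β : Type} (r : ℕ → β) {T : Set β} (hT : ℵ₀ < Cardinal.mk T) :
    ∃ x ∈ T, ∀ n, r n ≠ x := by
  by_contra hcon
  have hsub : T ⊆ Set.range r := by
    intro x hx
    by_contra hr
    exact hcon ⟨x, hx, fun n hn => hr ⟨n, hn⟩⟩
  have := (mk_le_mk_of_subset hsub).trans mk_range_le
  rw [mk_nat] at this
  exact absurd this (not_le.2 hT)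

theorem squareBracket_of_uncountable {lam theta : Cardinal.{0}} (h0 : ℵ₀ ≤ lam.ord.cof)
    (h1 : ℵ₀ < theta) (h2 : ¬ (theta = ℵ₁ ∧ lam.ord.cof = ℵ₁)) : SquareBracket lam theta := by
  have hlam : ℵ₀ ≤ lam := h0.trans (Ordinal.cof_ord_le lam)
  have h1' : ℵ₁ ≤ theta := by
    rw [← succ_aleph0]
    exact Order.succ_le_of_lt h1
  intro c
  suffices h : ∃ x, Cardinal.mk {a : lam.ord.ToType | ∀ n, c (a, n) ≠ x} = lam by
    obtain ⟨x, hx⟩ := h
    exact ⟨_, Set.univ, hx, Set.infinite_univ, x, fun a ha n _ => ha n⟩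
  have hle : ∀ X : Set lam.ord.ToType, Cardinal.mk X ≤ lam := fun X =>
    (mk_set_le X).trans_eq (mk_ord_toType lam)
  rcases lt_or_ge ℵ₁ lam.ord.cof with hc | hc
  · obtain ⟨T, hT⟩ := le_mk_iff_exists_set.1 (h1'.trans_eq (mk_ord_toType theta).symm)
    have key : ∀ a : lam.ord.ToType, ∃ x : T, ∀ n, c (a, n) ≠ x.1 := by
      intro a
      obtain ⟨x, hx, h⟩ := exists_missing (fun n => c (a, n)) (T := T)
        (by rw [hT]; exact aleph0_lt_aleph_one)
      exact ⟨⟨x, hx⟩, h⟩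
    choose φ hφ using key
    obtain ⟨x, hx⟩ := infinite_pigeonhole φ (by rwa [mk_ord_toType])
      (by rwa [mk_ord_toType, hT])
    rw [mk_ord_toType] at hx
    refine ⟨x.1, le_antisymm (hle _) (hx.ge.trans (mk_le_mk_of_subset fun a ha n => ?_))⟩
    have e : φ a = x := ha
    rw [← e]
    exact hφ a n
  · have hct : lam.ord.cof < theta := by
      rcases hc.lt_or_eq with h | h
      · exact h.trans_le h1'
      · rw [h]
        exact lt_of_le_of_ne h1' fun e => h2 ⟨e.symm, h⟩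
    rcases lt_or_ge lam theta with hl | hl
    · have : ∃ x, x ∉ Set.range c := by
        by_contra hcon
        have e : Set.range c = Set.univ := Set.eq_univ_of_forall fun x => by
          by_contra hx
          exact hcon ⟨x, hx⟩
        have h3 : Cardinal.mk (Set.range c) ≤ Cardinal.mk (lam.ord.ToType × ℕ) := mk_range_le
        rw [e, mk_univ, mk_ord_toType] at h3
        simp only [mk_prod, lift_id, mk_ord_toType, mk_nat] at h3
        rw [mul_eq_left hlam hlam aleph0_ne_zero] at h3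
        exact absurd h3 (not_le.2 hl)
      obtain ⟨x, hx⟩ := this
      refine ⟨x, ?_⟩
      have e : {a : lam.ord.ToType | ∀ n, c (a, n) ≠ x} = Set.univ :=
        Set.eq_univ_of_forall fun a n hn => hx ⟨_, hn⟩
      rw [e, mk_univ, mk_ord_toType]
    · have hl1 : ℵ₁ < lam := by
        refine lt_of_le_of_ne (h1'.trans hl) fun e => ?_
        have e2 : lam.ord.cof = lam := by rw [← e, isRegular_aleph_one.cof_ord]
        exact absurd (hct.trans_le hl) (by rw [e2]; exact lt_irrefl _)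
      by_contra hcon
      obtain ⟨s, hs, hsc⟩ := Order.exists_cof_eq (α := lam.ord.ToType)
      rw [Ordinal.cof_toType] at hsc
      have key : ∀ x : theta.ord.ToType, ∃ b : s,
          Cardinal.mk {a : lam.ord.ToType | ∀ n, c (a, n) ≠ x} ≤ Cardinal.mk (Set.Iic b.1) := by
        intro x
        have hlt : Cardinal.mk {a : lam.ord.ToType | ∀ n, c (a, n) ≠ x} < lam :=
          lt_of_le_of_ne (hle _) fun e => hcon ⟨x, e⟩
        by_contra hno
        have hall : ∀ b : lam.ord.ToType, Cardinal.mk (Set.Iic b) <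
            Cardinal.mk {a : lam.ord.ToType | ∀ n, c (a, n) ≠ x} := by
          intro b
          obtain ⟨b', hb', hbb⟩ := hs b
          exact (mk_le_mk_of_subset (Set.Iic_subset_Iic.2 hbb)).trans_lt
            (not_le.1 fun h => hno ⟨⟨b', hb'⟩, h⟩)
        obtain ⟨b, hb⟩ : ∃ b : lam.ord.ToType, Cardinal.mk (Set.Iio b) =
            Cardinal.mk {a : lam.ord.ToType | ∀ n, c (a, n) ≠ x} := by
          have hlt' : (Cardinal.mk {a : lam.ord.ToType | ∀ n, c (a, n) ≠ x}).ord <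
              Ordinal.type (α := lam.ord.ToType) (· < ·) := by
            rw [Ordinal.type_toType]
            exact ord_lt_ord.2 hlt
          obtain ⟨b, hb⟩ := Ordinal.typein_surj _ hlt'
          refine ⟨b, ?_⟩
          have e := congrArg Ordinal.card hb
          rw [card_ord] at e
          exact e
        exact absurd ((mk_le_mk_of_subset Set.Iio_subset_Iic_self).trans_lt (hall b))
          (by rw [hb]; exact lt_irrefl _)
      choose φ hφ using key
      obtain ⟨b, hb⟩ := infinite_pigeonhole_card φ (Order.succ lam.ord.cof)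
        (by rw [mk_ord_toType]; exact Order.succ_le_of_lt hct) (h0.trans (Order.le_succ _))
        (by rw [(isRegular_succ h0).cof_ord, hsc]; exact Order.lt_succ _)
      have hb1 : ℵ₁ ≤ Cardinal.mk (φ ⁻¹' {b}) := by
        refine le_trans ?_ hb
        rw [← succ_aleph0]
        exact Order.succ_le_succ h0
      obtain ⟨T, hTsub, hT⟩ := le_mk_iff_exists_subset.1 hb1
      have hun : Cardinal.mk (⋃ x : T, {a : lam.ord.ToType | ∀ n, c (a, n) ≠ x.1}) < lam := by
        refine (mk_iUnion_le _).trans_lt (mul_lt_of_lt hlam (by rwa [hT]) ?_)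
        refine lt_of_le_of_lt (ciSup_le' fun x => ?_) (mk_Iic_lt_of hlam b.1)
        have e : φ x.1 = b := hTsub x.2
        rw [← e]
        exact hφ x.1
      have : ∃ a, a ∉ ⋃ x : T, {a : lam.ord.ToType | ∀ n, c (a, n) ≠ x.1} := by
        by_contra hno
        have e : (⋃ x : T, {a : lam.ord.ToType | ∀ n, c (a, n) ≠ x.1}) = Set.univ :=
          Set.eq_univ_of_forall fun a => by
            by_contra ha
            exact hno ⟨a, ha⟩
        rw [e, mk_univ, mk_ord_toType] at hun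
        exact lt_irrefl _ hun
      obtain ⟨a, ha⟩ := this
      obtain ⟨x, hx, h⟩ := exists_missing (fun n => c (a, n)) (T := T)
        (by rw [hT]; exact aleph0_lt_aleph_one)
      exact ha (Set.mem_iUnion.2 ⟨⟨x, hx⟩, h⟩)

theorem not_squareBracket_iff (lam theta : Cardinal.{0})
    (hcf : lam.ord.cof = dominatingNumber.ord.cof) (h2 : 2 ≤ theta) :
    ¬ SquareBracket lam theta ↔ dominatingNumber ≤ ultrafilterNumber ∧
      (theta ≤ ℵ₀ ∨ (theta = ℵ₁ ∧ lam.ord.cof = ℵ₁)) := by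
  constructor
  · intro h
    refine ⟨?_, ?_⟩
    · by_contra hlt
      exact h (squareBracket_of_smallUltra (smallUltra_iff.2 (not_le.1 hlt)) hcf h2)
    · by_contra hno
      rw [not_or] at hno
      exact h (squareBracket_of_uncountable (aleph0_le_cof_dominatingNumber.trans hcf.ge)
        (not_le.1 hno.1) hno.2)
  · rintro ⟨hu, h⟩
    have hU : ¬ SmallUltra := fun hS => absurd (smallUltra_iff.1 hS) (not_lt.2 hu)
    rcases h with h | ⟨rfl, h⟩
    · exact not_squareBracket_countable hU hcf (fun e => by rw [e] at h2; norm_num at h2) h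
    · exact not_squareBracket_aleph1 hU hcf h

end Pool.Agent.MP_10964f_lc
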